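import Mathlib

/-!
# Zero divergence coefficient with a positive Riemannian coefficient
-/

namespace Pool.Agent.Results.MP_7112d2_mp.ZeroVsPositive

open Matrix
open scoped ComplexOrder Kronecker

/-- Operator convexity on the positive half line. -/
def OperatorConvex (f : ℝ → ℝ) : Prop :=
  ∀ (n : ℕ) (A B : Matrix (Fin n) (Fin n) ℂ), A.PosDef → B.PosDef → ∀ t : ℝ, 0 ≤ t → t ≤ 1 →
    (t • cfc f A + (1 - t) • cfc f B - cfc f (t • A + (1 - t) • B)).PosSemidef

/-- The class of functions `f`. -/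
def ClassF (f : ℝ → ℝ) : Prop := OperatorConvex f ∧ f 1 = 0 ∧ 0 < deriv (deriv f) 1

/-- The class of functions `κ`. -/
def ClassK (κ : ℝ → ℝ) : Prop :=
  OperatorConvex κ ∧ (∀ x, 0 < x → x * κ x = κ (1 / x)) ∧ κ 1 = 1

variable {A B C : Type} [Fintype A] [DecidableEq A] [Fintype B] [DecidableEq B]
  [Fintype C] [DecidableEq C]

/-- Density operators. -/
def IsDensity (ρ : Matrix A A ℂ) : Prop := ρ.PosSemidef ∧ ρ.trace = 1

/-- Channels, in Kraus form. -/
def IsChannel (Φ : Matrix A A ℂ → Matrix B B ℂ) : Prop :=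
  ∃ (r : ℕ) (K : Fin r → Matrix B A ℂ), ∑ i, (K i)ᴴ * K i = 1 ∧ ∀ X, Φ X = ∑ i, K i * X * (K i)ᴴ

/-- The generalised inverse of a Hermitian matrix. -/
noncomputable def pinv (σ : Matrix A A ℂ) : Matrix A A ℂ := cfc (fun x : ℝ => x⁻¹) σ

/-- A matrix as a vector of the Hilbert-Schmidt space. -/
def vc (Y : Matrix A A ℂ) : A × A → ℂ := fun p => Y p.1 p.2

/-- Left multiplication by `σ`, as a matrix on the Hilbert-Schmidt space. -/
def Lop (σ : Matrix A A ℂ) : Matrix (A × A) (A × A) ℂ := σ ⊗ₖ (1 : Matrix A A ℂ)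

/-- Right multiplication by `τ`, as a matrix on the Hilbert-Schmidt space. -/
def Rop (τ : Matrix A A ℂ) : Matrix (A × A) (A × A) ℂ := (1 : Matrix A A ℂ) ⊗ₖ τᵀ

/-- The standard `f`-divergence. -/
noncomputable def divg (f : ℝ → ℝ) (ρ γ : Matrix A A ℂ) : ℝ :=
  (star (vc (cfc Real.sqrt γ)) ⬝ᵥ
    (cfc f (Lop ρ * Rop (pinv γ))) *ᵥ vc (cfc Real.sqrt γ)).re

/-- The squared Riemannian semi-norm. -/
noncomputable def normSq (κ : ℝ → ℝ) (σ Y : Matrix A A ℂ) : ℝ :=
  (star (vc Y) ⬝ᵥ (cfc κ (Lop σ * Rop (pinv σ)) * Rop (pinv σ)) *ᵥ vc Y).re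

/-- Equality of supports. -/
def SameSupport (ρ γ : Matrix A A ℂ) : Prop := ∀ v : A → ℂ, ρ *ᵥ v = 0 ↔ γ *ᵥ v = 0

/-- The quotients in the definition of the divergence coefficient. -/
def ratiosStd (f : ℝ → ℝ) (N : Matrix A A ℂ → Matrix B B ℂ) (M : Matrix A A ℂ → Matrix C C ℂ) :
    Set ℝ :=
  {r | ∃ ρ γ, IsDensity ρ ∧ IsDensity γ ∧ ρ ≠ γ ∧ SameSupport ρ γ ∧
    divg f (M ρ) (M γ) ≠ 0 ∧ r = divg f (N ρ) (N γ) / divg f (M ρ) (M γ)}

/-- The quotients in the definition of the Riemannian coefficient. -/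
def ratiosRiem (κ : ℝ → ℝ) (N : Matrix A A ℂ → Matrix B B ℂ)
    (M : Matrix A A ℂ → Matrix C C ℂ) : Set ℝ :=
  {r | ∃ ρ X, IsDensity ρ ∧ Xᴴ = X ∧ X.trace = 0 ∧
    normSq κ (M ρ) (M X) ≠ 0 ∧ r = normSq κ (N ρ) (N X) / normSq κ (M ρ) (M X)}

/-! ### Functional calculus -/

theorem contOn (f : ℝ → ℝ) (M : Matrix A A ℂ) : ContinuousOn f (spectrum ℝ M) :=
  (Matrix.finite_real_spectrum).continuousOn f

theorem Lop_mul_Rop_mulVec (σ τ Y : Matrix A A ℂ) :
    (Lop σ * Rop τ) *ᵥ vc Y = vc (σ * Y * τ) := by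
  unfold Lop Rop
  rw [← Matrix.mul_kronecker_mul, one_mul, mul_one]
  funext p
  obtain ⟨i, j⟩ := p
  simp only [Matrix.mulVec, dotProduct, vc, Matrix.kroneckerMap_apply, Matrix.transpose_apply,
    Fintype.sum_prod_type, Matrix.mul_apply, Finset.sum_mul]
  rw [Finset.sum_comm]
  refine Finset.sum_congr rfl fun k _ => Finset.sum_congr rfl fun l _ => ?_
  ring

theorem Rop_mulVec (τ Y : Matrix A A ℂ) : Rop τ *ᵥ vc Y = vc (Y * τ) := by
  have := Lop_mul_Rop_mulVec 1 τ Y
  rwa [one_mul, show Lop (1 : Matrix A A ℂ) = 1 from Matrix.one_kronecker_one, one_mul] at this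

omit [DecidableEq A] in
theorem vc_dot (Y Z : Matrix A A ℂ) : star (vc Y) ⬝ᵥ vc Z = (Yᴴ * Z).trace := by
  simp only [dotProduct, vc, Fintype.sum_prod_type, Matrix.trace, Matrix.diag_apply,
    Matrix.mul_apply, Matrix.conjTranspose_apply, Pi.star_apply]
  rw [Finset.sum_comm]

theorem pinv_H (σ : Matrix A A ℂ) : (pinv σ)ᴴ = pinv σ :=
  (cfc_predicate (R := ℝ) (p := IsSelfAdjoint) (fun x : ℝ => x⁻¹) σ)

theorem LR_H {σ : Matrix A A ℂ} (hσ : σᴴ = σ) (τ : Matrix A A ℂ) (hτ : τᴴ = τ) :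
    IsSelfAdjoint (Lop σ * Rop τ) := by
  unfold Lop Rop
  rw [← Matrix.mul_kronecker_mul, one_mul, mul_one]
  show (σ ⊗ₖ τᵀ)ᴴ = _
  rw [Matrix.conjTranspose_kronecker, hσ, Matrix.conjTranspose_transpose_eq_transpose_conjTranspose, hτ]

theorem pinv_comm {σ : Matrix A A ℂ} (hσ : σᴴ = σ) : pinv σ * σ = σ * pinv σ := by
  have h : IsSelfAdjoint σ := hσ
  have e1 : pinv σ * σ = cfc (fun x : ℝ => x⁻¹ * x) σ := by
    rw [cfc_mul (fun x : ℝ => x⁻¹) (fun x => x) σ (contOn _ σ) (contOn _ σ), cfc_id' ℝ σ]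
    rfl
  have e2 : σ * pinv σ = cfc (fun x : ℝ => x * x⁻¹) σ := by
    rw [cfc_mul (fun x : ℝ => x) (fun x => x⁻¹) σ (contOn _ σ) (contOn _ σ), cfc_id' ℝ σ]
    rfl
  rw [e1, e2]
  congr 1
  funext x
  ring

theorem pinv_left {σ : Matrix A A ℂ} (hσ : σᴴ = σ) : σ * pinv σ * σ = σ := by
  have h : IsSelfAdjoint σ := hσ
  have e2 : σ * pinv σ = cfc (fun x : ℝ => x * x⁻¹) σ := by
    rw [cfc_mul (fun x : ℝ => x) (fun x => x⁻¹) σ (contOn _ σ) (contOn _ σ), cfc_id' ℝ σ]
    rfl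
  have e3 : σ * pinv σ * σ = cfc (fun x : ℝ => x * x⁻¹ * x) σ := by
    rw [cfc_mul (fun x : ℝ => x * x⁻¹) (fun x => x) σ (contOn _ σ) (contOn _ σ), cfc_id' ℝ σ, e2]
  rw [e3]
  conv_rhs => rw [← cfc_id' ℝ σ]
  congr 1
  funext x
  by_cases hx : x = 0
  · simp [hx]
  · field_simp

theorem pinv_right {σ : Matrix A A ℂ} (hσ : σᴴ = σ) : pinv σ * σ * pinv σ = pinv σ := by
  have h : IsSelfAdjoint σ := hσ
  have e1 : pinv σ * σ = cfc (fun x : ℝ => x⁻¹ * x) σ := by
    rw [cfc_mul (fun x : ℝ => x⁻¹) (fun x => x) σ (contOn _ σ) (contOn _ σ), cfc_id' ℝ σ]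
    rfl
  have e3 : pinv σ * σ * pinv σ = cfc (fun x : ℝ => x⁻¹ * x * x⁻¹) σ := by
    rw [cfc_mul (fun x : ℝ => x⁻¹ * x) (fun x => x⁻¹) σ (contOn _ σ) (contOn _ σ), e1]
    rfl
  rw [e3]
  unfold pinv
  congr 1
  funext x
  by_cases hx : x = 0
  · simp [hx]
  · field_simp

theorem pinv_eq {σ τ : Matrix A A ℂ} (hσ : σᴴ = σ) (hc : τ * σ = σ * τ) (h1 : σ * τ * σ = σ)
    (h2 : τ * σ * τ = τ) : pinv σ = τ := by
  have p1 := pinv_comm hσ
  have p2 := pinv_left hσ
  have p3 := pinv_right hσ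
  have e1 : σ * pinv σ = σ * τ := by
    calc σ * pinv σ = pinv σ * σ := p1.symm
      _ = pinv σ * (σ * τ * σ) := by rw [h1]
      _ = (pinv σ * σ) * (τ * σ) := by noncomm_ring
      _ = (σ * pinv σ) * (σ * τ) := by rw [p1, hc]
      _ = (σ * pinv σ * σ) * τ := by noncomm_ring
      _ = σ * τ := by rw [p2]
  calc pinv σ = pinv σ * σ * pinv σ := p3.symm
    _ = pinv σ * (σ * pinv σ) := by rw [mul_assoc]
    _ = pinv σ * (σ * τ) := by rw [e1]
    _ = (pinv σ * σ) * τ := by rw [mul_assoc]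
    _ = (σ * τ) * τ := by rw [p1, e1]
    _ = τ * σ * τ := by rw [← hc]
    _ = τ := h2

theorem pinv_of_mul_eq_one {σ τ : Matrix A A ℂ} (hσ : σᴴ = σ) (h : σ * τ = 1) : pinv σ = τ := by
  have h' : τ * σ = 1 := mul_eq_one_comm.mp h
  refine pinv_eq hσ (by rw [h, h']) ?_ ?_
  · rw [h, one_mul]
  · rw [h', one_mul]

/-! ### The two functions -/

/-- The function of the divergence. -/
def f0 (x : ℝ) : ℝ := (x - 1) ^ 2

/-- The function of the Riemannian semi-norm. -/
noncomputable def k0 (x : ℝ) : ℝ := 2 / (1 + x)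

theorem cfc_f0 {M : Matrix A A ℂ} (hM : IsSelfAdjoint M) : cfc f0 M = (M - 1) * (M - 1) := by
  have h1 : cfc (fun x : ℝ => x - 1) M = M - 1 := by
    rw [cfc_sub (fun x : ℝ => x) (fun _ => 1) M (contOn _ M) (contOn _ M), cfc_id' ℝ M,
      cfc_const_one ℝ M]
  have h2 : f0 = fun x : ℝ => (x - 1) * (x - 1) := by
    funext x; unfold f0; ring
  rw [h2, cfc_mul (fun x : ℝ => x - 1) (fun x => x - 1) M (contOn _ M) (contOn _ M), h1]

theorem cfc_k0_mul {M : Matrix A A ℂ} (hM : M.PosSemidef) : cfc k0 M * (1 + M) = (2 : ℂ) • 1 := by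
  have hs : IsSelfAdjoint M := hM.1
  have h1 : cfc (fun x : ℝ => 1 + x) M = 1 + M := by
    rw [cfc_add M (fun _ : ℝ => (1 : ℝ)) (fun x => x) (contOn _ M) (contOn _ M), cfc_id' ℝ M,
      cfc_const_one ℝ M]
  rw [← h1, ← cfc_mul k0 (fun x => 1 + x) M (contOn _ M) (contOn _ M)]
  have h2 : cfc (fun x : ℝ => k0 x * (1 + x)) M = cfc (fun _ : ℝ => (2 : ℝ)) M := by
    refine cfc_congr fun x hx => ?_
    have hx0 : 0 ≤ x := by
      rw [hM.1.spectrum_real_eq_range_eigenvalues] at hx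
      obtain ⟨i, rfl⟩ := hx
      exact hM.eigenvalues_nonneg i
    unfold k0
    have : (1 + x) ≠ 0 := by positivity
    field_simp
  rw [h2, cfc_const (2 : ℝ) M, Algebra.algebraMap_eq_smul_one]
  ext i j
  simp

theorem cfc_k0_posDef {M : Matrix A A ℂ} (hM : M.PosDef) :
    cfc k0 M = (2 : ℂ) • (1 + M)⁻¹ := by
  have h := cfc_k0_mul hM.posSemidef
  have hu : (1 + M).PosDef := Matrix.PosDef.one.add hM
  have hdet : IsUnit (1 + M).det := (Matrix.isUnit_iff_isUnit_det _).mp hu.isUnit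
  calc cfc k0 M = cfc k0 M * ((1 + M) * (1 + M)⁻¹) := by
        rw [Matrix.mul_nonsing_inv _ hdet, mul_one]
    _ = (cfc k0 M * (1 + M)) * (1 + M)⁻¹ := by rw [mul_assoc]
    _ = _ := by rw [h, smul_mul_assoc, one_mul]

omit [Fintype A] [DecidableEq A] in
theorem real_smul_eq (t : ℝ) (M : Matrix A A ℂ) : t • M = (t : ℂ) • M := by
  ext i j
  simp

omit [Fintype A] [DecidableEq A] in
theorem real_smul_psd {M : Matrix A A ℂ} (hM : M.PosSemidef) {c : ℝ} (hc : 0 ≤ c) :
    ((c : ℂ) • M).PosSemidef := by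
  refine hM.smul ?_
  rw [Complex.le_def]
  simp [hc]

theorem convex_posDef {n : ℕ} {P Q : Matrix (Fin n) (Fin n) ℂ} (hP : P.PosDef) (hQ : Q.PosDef)
    {t : ℝ} (h0 : 0 ≤ t) (h1 : t ≤ 1) : (t • P + (1 - t) • Q).PosDef := by
  rcases eq_or_lt_of_le h0 with rfl | h
  · simpa using hQ
  · have e1 : (t • P).PosDef := by
      rw [real_smul_eq]
      refine hP.smul ?_
      rw [Complex.lt_def]
      simp [h]
    have e2 : ((1 - t) • Q).PosSemidef := by
      rw [real_smul_eq]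
      exact real_smul_psd hQ.posSemidef (by linarith)
    exact e1.add_posSemidef e2

theorem f0_convex : OperatorConvex f0 := by
  intro n P Q hP hQ t h0 h1
  have hR := convex_posDef hP hQ h0 h1
  rw [cfc_f0 hP.1, cfc_f0 hQ.1, cfc_f0 hR.1]
  have hpsd : ((P - Q)ᴴ * (P - Q)).PosSemidef := Matrix.posSemidef_conjTranspose_mul_self _
  have hH : (P - Q)ᴴ = P - Q := by
    rw [Matrix.conjTranspose_sub, hP.1, hQ.1]
  rw [hH] at hpsd
  have h2 := real_smul_psd hpsd (c := t * (1 - t)) (mul_nonneg h0 (by linarith))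
  have h3 : t • ((P - 1) * (P - 1)) + (1 - t) • ((Q - 1) * (Q - 1)) -
      (t • P + (1 - t) • Q - 1) * (t • P + (1 - t) • Q - 1) =
      ((t * (1 - t) : ℝ) : ℂ) • ((P - Q) * (P - Q)) := by
    simp only [real_smul_eq]
    simp only [sub_mul, mul_sub, add_mul, mul_add, smul_mul_assoc, mul_smul_comm, smul_smul, one_mul,
      mul_one, smul_sub, smul_add]
    push_cast
    module
  rw [h3]
  exact h2

theorem k0_convex : OperatorConvex k0 := by
  intro n P Q hP hQ t h0 h1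
  have hR := convex_posDef hP hQ h0 h1
  rw [cfc_k0_posDef hP, cfc_k0_posDef hQ, cfc_k0_posDef hR]
  have key : ∀ (R W : Matrix (Fin n) (Fin n) ℂ), R.PosDef → Wᴴ = W →
      ((1 + R)⁻¹ - ((2 : ℂ) • W - W * (1 + R) * W)).PosSemidef := by
    intro R W hRp hW
    have hp : (1 + R).PosDef := Matrix.PosDef.one.add hRp
    have hdet : IsUnit (1 + R).det := (Matrix.isUnit_iff_isUnit_det _).mp hp.isUnit
    have hinv : ((1 + R)⁻¹)ᴴ = (1 + R)⁻¹ := by
      rw [Matrix.conjTranspose_nonsing_inv, hp.1]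
    have h2 := hp.posSemidef.mul_mul_conjTranspose_same (W - (1 + R)⁻¹)
    have h3 : (W - (1 + R)⁻¹) * (1 + R) * (W - (1 + R)⁻¹)ᴴ =
        (1 + R)⁻¹ - ((2 : ℂ) • W - W * (1 + R) * W) := by
      rw [Matrix.conjTranspose_sub, hinv, hW]
      rw [sub_mul, Matrix.nonsing_inv_mul _ hdet, mul_sub, sub_mul, sub_mul, one_mul, one_mul,
        mul_assoc W (1 + R) (1 + R)⁻¹, Matrix.mul_nonsing_inv _ hdet, mul_one, two_smul]
      abel
    rwa [h3] at h2
  set W := (1 + (t • P + (1 - t) • Q))⁻¹ with hWdef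
  have hp : (1 + (t • P + (1 - t) • Q)).PosDef := Matrix.PosDef.one.add hR
  have hdet : IsUnit (1 + (t • P + (1 - t) • Q)).det := (Matrix.isUnit_iff_isUnit_det _).mp hp.isUnit
  have hWH : Wᴴ = W := by
    rw [hWdef, Matrix.conjTranspose_nonsing_inv, hp.1]
  have hWW : W * (1 + (t • P + (1 - t) • Q)) * W = W := by
    rw [hWdef, Matrix.nonsing_inv_mul _ hdet, one_mul]
  have e1 := real_smul_psd (key P W hP hWH) (c := 2 * t) (by linarith)
  have e2 := real_smul_psd (key Q W hQ hWH) (c := 2 * (1 - t)) (by linarith)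
  have e3 := e1.add e2
  have h3 : t • ((2 : ℂ) • (1 + P)⁻¹) + (1 - t) • ((2 : ℂ) • (1 + Q)⁻¹) - (2 : ℂ) • W =
      ((2 * t : ℝ) : ℂ) • ((1 + P)⁻¹ - ((2 : ℂ) • W - W * (1 + P) * W)) +
      ((2 * (1 - t) : ℝ) : ℂ) • ((1 + Q)⁻¹ - ((2 : ℂ) • W - W * (1 + Q) * W)) := by
    have h4 : (2 : ℂ) • (W * (1 + (t • P + (1 - t) • Q)) * W) = (2 : ℂ) • W := by rw [hWW]
    simp only [real_smul_eq] at h4 ⊢
    simp only [mul_add, add_mul, mul_one, mul_smul_comm, smul_mul_assoc, smul_add, smul_sub,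
      smul_smul] at h4 ⊢
    push_cast at h4 ⊢
    have h5 : (2 : ℂ) • (W * W) = (2 : ℂ) • W - ((2 * (t : ℂ)) • (W * P * W) +
        (2 * (1 - (t : ℂ))) • (W * Q * W)) := by
      rw [← h4]; abel
    have h8 : ((t : ℂ) * 2) • (1 + P)⁻¹ = (2 * (t : ℂ)) • (1 + P)⁻¹ := by rw [mul_comm]
    have h9 : ((1 - (t : ℂ)) * 2) • (1 + Q)⁻¹ = (2 * (1 - (t : ℂ))) • (1 + Q)⁻¹ := by rw [mul_comm]
    rw [h8, h9]
    have h10 : (2 : ℂ) • W = (2 : ℂ) • (W * W) + ((2 * (t : ℂ)) • (W * P * W) +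
        (2 * (1 - (t : ℂ))) • (W * Q * W)) := by rw [h5]; abel
    exact sub_eq_zero.mp (Eq.trans (by module) (sub_eq_zero.mpr h10))
  rw [h3]
  exact e3

theorem f0_class : ClassF f0 := by
  refine ⟨f0_convex, by norm_num [f0], ?_⟩
  have h1 : deriv f0 = fun x => 2 * (x - 1) := by
    funext x
    have : HasDerivAt f0 (2 * (x - 1)) x := by
      have h := ((hasDerivAt_id' x).sub_const 1).pow 2
      have e2 : (((2 : ℕ) : ℝ) * (x - 1) ^ (2 - 1) * 1) = 2 * (x - 1) := by norm_num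
      rw [e2] at h
      exact h
    exact this.deriv
  rw [h1]
  have h2 : HasDerivAt (fun x : ℝ => 2 * (x - 1)) (2 * 1) 1 :=
    ((hasDerivAt_id (1 : ℝ)).sub_const 1).const_mul 2
  rw [h2.deriv]
  norm_num

theorem k0_class : ClassK k0 := by
  refine ⟨k0_convex, ?_, by norm_num [k0]⟩
  intro x hx
  unfold k0
  field_simp
  ring

theorem k0_cont : ContinuousOn k0 (Set.Ici 0) := by
  unfold k0
  refine ContinuousOn.div continuousOn_const (by fun_prop) ?_
  intro x hx
  have : 0 ≤ x := hx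
  positivity

/-! ### Evaluation of the divergence -/

theorem sub_one_mulVec (σ τ Y : Matrix A A ℂ) :
    (Lop σ * Rop τ - 1) *ᵥ vc Y = vc (σ * Y * τ - Y) := by
  rw [Matrix.sub_mulVec, Lop_mul_Rop_mulVec, Matrix.one_mulVec]
  rfl

theorem divg_nonneg {ρ : Matrix A A ℂ} (hρ : ρᴴ = ρ) (γ : Matrix A A ℂ) : 0 ≤ divg f0 ρ γ := by
  unfold divg
  have hs := LR_H hρ (pinv γ) (pinv_H γ)
  rw [cfc_f0 hs]
  have h1 : (Lop ρ * Rop (pinv γ) - 1)ᴴ = Lop ρ * Rop (pinv γ) - 1 := by
    rw [Matrix.conjTranspose_sub, Matrix.conjTranspose_one]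
    congr 1
  have h2 : ((Lop ρ * Rop (pinv γ) - 1) * (Lop ρ * Rop (pinv γ) - 1)).PosSemidef := by
    have := Matrix.posSemidef_conjTranspose_mul_self (Lop ρ * Rop (pinv γ) - 1)
    rwa [h1] at this
  have h3 := h2.dotProduct_mulVec_nonneg (vc (cfc Real.sqrt γ))
  rw [Complex.le_def] at h3
  exact h3.1

theorem divg_eq {ρ γ G : Matrix A A ℂ} (hρ : ρᴴ = ρ) (hγ : γ.PosSemidef) (hG : γ * G = 1) :
    divg f0 ρ γ = (ρ * ρ * G).trace.re - 2 * ρ.trace.re + γ.trace.re := by
  have hγH : γᴴ = γ := hγ.1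
  have hp : pinv γ = G := pinv_of_mul_eq_one hγH hG
  have hG' : G * γ = 1 := mul_eq_one_comm.mp hG
  unfold divg
  have hs := LR_H hρ (pinv γ) (pinv_H γ)
  rw [cfc_f0 hs, ← Matrix.mulVec_mulVec, sub_one_mulVec, sub_one_mulVec, vc_dot, hp]
  set S := cfc Real.sqrt γ with hS
  have hSH : Sᴴ = S := cfc_predicate (R := ℝ) (p := IsSelfAdjoint) Real.sqrt γ
  have hSS : S * S = γ := by
    have h : IsSelfAdjoint γ := hγH
    rw [hS, ← cfc_mul Real.sqrt Real.sqrt γ (contOn _ γ) (contOn _ γ)]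
    conv_rhs => rw [← cfc_id' ℝ γ]
    refine cfc_congr fun x hx => ?_
    have hx0 : 0 ≤ x := by
      rw [hγ.1.spectrum_real_eq_range_eigenvalues] at hx
      obtain ⟨i, rfl⟩ := hx
      exact hγ.eigenvalues_nonneg i
    exact Real.mul_self_sqrt hx0
  have hSG : S * G = G * S := by
    have h : S * γ = γ * S := by
      rw [← hSS]; noncomm_ring
    calc S * G = G * γ * (S * G) := by rw [hG', one_mul]
      _ = G * (γ * S) * G := by noncomm_ring
      _ = G * (S * γ) * G := by rw [h]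
      _ = G * S * (γ * G) := by noncomm_ring
      _ = G * S := by rw [hG, mul_one]
  rw [hSH]
  have e1 : S * (ρ * (ρ * S * G - S) * G - (ρ * S * G - S)) =
      S * (ρ * ρ * S * G * G) - S * (ρ * S * G) - S * (ρ * S * G) + S * S := by
    noncomm_ring
  have e2 : (S * (ρ * ρ * S * G * G)).trace = (ρ * ρ * G).trace := by
    rw [Matrix.trace_mul_comm]
    congr 1
    calc ρ * ρ * S * G * G * S = ρ * ρ * (S * G) * (G * S) := by noncomm_ring
      _ = ρ * ρ * (G * S) * (S * G) := by rw [hSG]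
      _ = ρ * ρ * G * (S * S) * G := by noncomm_ring
      _ = ρ * ρ * (G * γ) * G := by rw [hSS]; noncomm_ring
      _ = ρ * ρ * G := by rw [hG', mul_one]
  have e3 : (S * (ρ * S * G)).trace = ρ.trace := by
    rw [Matrix.trace_mul_comm]
    congr 1
    calc ρ * S * G * S = ρ * (S * G) * S := by noncomm_ring
      _ = ρ * (G * S) * S := by rw [hSG]
      _ = ρ * (G * (S * S)) := by noncomm_ring
      _ = ρ := by rw [hSS, hG', mul_one]
  rw [e1, Matrix.trace_add, Matrix.trace_sub, Matrix.trace_sub, e2, e3, hSS]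
  simp only [Complex.add_re, Complex.sub_re]
  ring

/-! ### Evaluation of the Riemannian semi-norm -/

theorem pinv_psd {σ : Matrix A A ℂ} (hσ : σ.PosSemidef) : (pinv σ).PosSemidef := by
  have h := hσ.conjTranspose_mul_mul_same (pinv σ)
  rw [pinv_H, pinv_right hσ.1] at h
  exact h

theorem LR_psd {σ τ : Matrix A A ℂ} (hσ : σ.PosSemidef) (hτ : τ.PosSemidef) :
    (Lop σ * Rop τ).PosSemidef := by
  unfold Lop Rop
  rw [← Matrix.mul_kronecker_mul, one_mul, mul_one]
  exact hσ.kronecker hτ.transpose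

theorem normSq_eq {σ Y Z : Matrix A A ℂ} (hσ : σ.PosSemidef)
    (h : Z + σ * Z * pinv σ = Y * pinv σ) : normSq k0 σ Y = 2 * (Yᴴ * Z).trace.re := by
  unfold normSq
  have hA := LR_psd hσ (pinv_psd hσ)
  have h1 := cfc_k0_mul hA
  rw [← Matrix.mulVec_mulVec, Rop_mulVec, ← h]
  have h2 : vc (Z + σ * Z * pinv σ) = (1 + Lop σ * Rop (pinv σ)) *ᵥ vc Z := by
    rw [Matrix.add_mulVec, Matrix.one_mulVec, Lop_mul_Rop_mulVec]
    rfl
  rw [h2, Matrix.mulVec_mulVec, h1, Matrix.smul_mulVec, Matrix.one_mulVec, dotProduct_smul, vc_dot]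
  simp

theorem normSq_lyap {σ Y Z τ : Matrix A A ℂ} (hσ : σ.PosSemidef) (hτ : σ * τ = 1)
    (h : Z * σ + σ * Z = Y) : normSq k0 σ Y = 2 * (Yᴴ * Z).trace.re := by
  refine normSq_eq hσ ?_
  rw [pinv_of_mul_eq_one hσ.1 hτ, ← h, add_mul, mul_assoc Z, hτ, mul_one]

/-! ### The channels -/

/-- The partially dephasing channel. -/
noncomputable def Mch (X : Matrix (Fin 2) (Fin 2) ℂ) : Matrix (Fin 2) (Fin 2) ℂ :=
  !![X 0 0, X 0 1 / 2; X 1 0 / 2, X 1 1]

/-- The second block of the other channel. -/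
noncomputable def Ech (X : Matrix (Fin 2) (Fin 2) ℂ) : Matrix (Fin 2) (Fin 2) ℂ :=
  !![(X 0 0 + X 1 1) / 18, X 0 1 / 18; X 1 0 / 18, (X 0 0 + X 1 1) / 18]

/-- The other channel. -/
noncomputable def Nch (X : Matrix (Fin 2) (Fin 2) ℂ) :
    Matrix (Fin 2 ⊕ Fin 2) (Fin 2 ⊕ Fin 2) ℂ :=
  Matrix.fromBlocks !![8 / 9 * X 0 0, 0; 0, 8 / 9 * X 1 1] 0 0 (Ech X)

theorem ct_fin_two (a b c d : ℂ) :
    !![a, b; c, d]ᴴ = !![(starRingEnd ℂ) a, (starRingEnd ℂ) c; (starRingEnd ℂ) b,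
      (starRingEnd ℂ) d] := by
  ext i j; fin_cases i <;> fin_cases j <;> rfl

theorem c2 : (starRingEnd ℂ) 2 = 2 := Complex.conj_ofNat 2

theorem c3 : (starRingEnd ℂ) 3 = 3 := Complex.conj_ofNat 3

theorem c6 : (starRingEnd ℂ) 6 = 6 := Complex.conj_ofNat 6

theorem add_fin_two (a b c d a' b' c' d' : ℂ) :
    !![a, b; c, d] + !![a', b'; c', d'] = !![a + a', b + b'; c + c', d + d'] := by
  ext i j; fin_cases i <;> fin_cases j <;> rfl

theorem M_channel : IsChannel Mch := by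
  refine ⟨4, ![!![1 / 2, 0; 0, 1 / 2], !![1 / 2, 0; 0, 1 / 2], !![1 / 2, 0; 0, 1 / 2],
    !![1 / 2, 0; 0, -(1 / 2)]], ?_, ?_⟩
  · simp only [Fin.sum_univ_four, Matrix.cons_val_zero, Matrix.cons_val_one, Matrix.cons_val,
      ct_fin_two, Matrix.mul_fin_two, add_fin_two, map_div₀, map_neg, map_zero, map_one, c2,
      Matrix.one_fin_two]
    norm_num
  · intro X
    rw [Matrix.eta_fin_two X]
    simp only [Fin.sum_univ_four, Matrix.cons_val_zero, Matrix.cons_val_one, Matrix.cons_val,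
      ct_fin_two, Matrix.mul_fin_two, add_fin_two, map_div₀, map_neg, map_zero, map_one, c2, Mch]
    ext i j
    fin_cases i <;> fin_cases j <;> simp <;> ring

theorem rows_top (P X : Matrix (Fin 2) (Fin 2) ℂ) :
    Matrix.fromRows P (0 : Matrix (Fin 2) (Fin 2) ℂ) * X *
      (Matrix.fromRows P (0 : Matrix (Fin 2) (Fin 2) ℂ))ᴴ =
      Matrix.fromBlocks (P * X * Pᴴ) 0 0 0 := by
  rw [Matrix.conjTranspose_fromRows_eq_fromCols_conjTranspose, Matrix.fromRows_mul,
    Matrix.fromRows_mul_fromCols]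
  simp

theorem rows_bot (P X : Matrix (Fin 2) (Fin 2) ℂ) :
    Matrix.fromRows (0 : Matrix (Fin 2) (Fin 2) ℂ) P * X *
      (Matrix.fromRows (0 : Matrix (Fin 2) (Fin 2) ℂ) P)ᴴ =
      Matrix.fromBlocks 0 0 0 (P * X * Pᴴ) := by
  rw [Matrix.conjTranspose_fromRows_eq_fromCols_conjTranspose, Matrix.fromRows_mul,
    Matrix.fromRows_mul_fromCols]
  simp

theorem rows_sq (P Q : Matrix (Fin 2) (Fin 2) ℂ) :
    (Matrix.fromRows P Q)ᴴ * Matrix.fromRows P Q = Pᴴ * P + Qᴴ * Q := by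
  rw [Matrix.conjTranspose_fromRows_eq_fromCols_conjTranspose, Matrix.fromCols_mul_fromRows]

theorem N_channel : IsChannel Nch := by
  refine ⟨6, ![Matrix.fromRows !![2 / 3, 0; 0, 2 / 3] 0, Matrix.fromRows !![2 / 3, 0; 0, -(2 / 3)] 0,
    Matrix.fromRows 0 !![1 / 6, 0; 0, 1 / 6], Matrix.fromRows 0 !![1 / 6, 0; 0, 1 / 6],
    Matrix.fromRows 0 !![0, 1 / 6; 1 / 6, 0],
    Matrix.fromRows 0 !![0, -(Complex.I / 6); Complex.I / 6, 0]], ?_, ?_⟩
  · simp only [Fin.sum_univ_six, Matrix.cons_val_zero, Matrix.cons_val_one, Matrix.cons_val,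
      rows_sq, ct_fin_two, Matrix.mul_fin_two, map_div₀, map_neg, map_zero, map_one,
      c2, c3, c6, Matrix.one_fin_two, Complex.conj_I, Matrix.conjTranspose_zero, Matrix.zero_mul,
      add_zero, zero_add, add_fin_two]
    ext i j
    fin_cases i <;> fin_cases j <;> simp <;> ring_nf <;> simp [Complex.I_sq] <;> norm_num
  · intro X
    rw [Matrix.eta_fin_two X]
    simp only [Fin.sum_univ_six, Matrix.cons_val_zero, Matrix.cons_val_one, Matrix.cons_val,
      rows_top, rows_bot, Matrix.fromBlocks_add, ct_fin_two, Matrix.mul_fin_two, add_fin_two,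
      map_div₀, map_neg, map_zero, map_one, c2, c3, c6, Complex.conj_I, Nch, Ech, add_zero,
      zero_add]
    congr 1
    · ext i j
      fin_cases i <;> fin_cases j <;> simp <;> ring
    · ext i j
      fin_cases i <;> fin_cases j <;> simp <;> ring_nf <;> simp [Complex.I_sq] <;> ring_nf

omit [DecidableEq B] in
theorem channel_psd {Φ : Matrix A A ℂ → Matrix B B ℂ} (h : IsChannel Φ) {ρ : Matrix A A ℂ}
    (hρ : ρ.PosSemidef) : (Φ ρ).PosSemidef := by
  obtain ⟨r, K, -, h2⟩ := h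
  rw [h2]
  exact Matrix.posSemidef_sum _ fun i _ => hρ.mul_mul_conjTranspose_same (K i)

/-! ### The divergence coefficient is zero -/

/-- The first state. -/
noncomputable def rh (a : ℝ) : Matrix (Fin 2) (Fin 2) ℂ :=
  !![1 - (a : ℂ), a * (1 - a); a * (1 - a), a]

/-- The second state. -/
noncomputable def ga (a : ℝ) : Matrix (Fin 2) (Fin 2) ℂ := !![1 - (a : ℂ), 0; 0, a]

theorem diag2_psd {p q : ℝ} (hp : 0 ≤ p) (hq : 0 ≤ q) :
    (!![(p : ℂ), 0; 0, q] : Matrix (Fin 2) (Fin 2) ℂ).PosSemidef := by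
  have h : (!![(p : ℂ), 0; 0, q] : Matrix (Fin 2) (Fin 2) ℂ) =
      Matrix.diagonal (fun i => ((![p, q] i : ℝ) : ℂ)) := by
    ext i j
    fin_cases i <;> fin_cases j <;> simp
  rw [h]
  refine Matrix.PosSemidef.diagonal ?_
  intro i
  fin_cases i <;> simp [hp, hq]

theorem ga_density {a : ℝ} (h0 : 0 < a) (h1 : a < 1) : IsDensity (ga a) := by
  refine ⟨?_, ?_⟩
  · have := diag2_psd (p := 1 - a) (q := a) (by linarith) h0.le
    unfold ga
    push_cast at this
    exact this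
  · simp [ga, Matrix.trace_fin_two]

theorem rh_density {a : ℝ} (h0 : 0 < a) (h1 : a < 1) : IsDensity (rh a) := by
  refine ⟨?_, ?_⟩
  · have h2 := diag2_psd (p := (1 - a) ^ 2) (q := a ^ 2) (by positivity) (by positivity)
    have h3 : (!![(1 : ℂ), 1; 1, 1] : Matrix (Fin 2) (Fin 2) ℂ).PosSemidef := by
      have := Matrix.posSemidef_vecMulVec_self_star (fun _ : Fin 2 => (1 : ℂ))
      have e : Matrix.vecMulVec (fun _ : Fin 2 => (1 : ℂ)) (star (fun _ : Fin 2 => (1 : ℂ))) =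
          !![(1 : ℂ), 1; 1, 1] := by
        ext i j
        fin_cases i <;> fin_cases j <;> simp [Matrix.vecMulVec_apply]
      rwa [e] at this
    have h4 := real_smul_psd h3 (c := a * (1 - a)) (mul_nonneg h0.le (by linarith))
    have h5 := h4.add h2
    have h6 : rh a = ((a * (1 - a) : ℝ) : ℂ) • (!![(1 : ℂ), 1; 1, 1] : Matrix (Fin 2) (Fin 2) ℂ) +
        !![(((1 - a) ^ 2 : ℝ) : ℂ), 0; 0, ((a ^ 2 : ℝ) : ℂ)] := by
      ext i j
      fin_cases i <;> fin_cases j <;> simp [rh] <;> ring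
    rw [h6]
    exact h5
  · simp [rh, Matrix.trace_fin_two]

theorem same_support {a : ℝ} (h0 : 0 < a) (h1 : a < 1) : SameSupport (rh a) (ga a) := by
  have hd : (0 : ℝ) < 1 - a := by linarith
  have e1 : (rh a).det ≠ 0 := by
    rw [Matrix.det_fin_two]
    have : (rh a) 0 0 * (rh a) 1 1 - (rh a) 0 1 * (rh a) 1 0 =
        ((a * (1 - a) * (1 - a * (1 - a)) : ℝ) : ℂ) := by
      simp [rh]; ring
    rw [this]
    have h2 : 0 < a * (1 - a) * (1 - a * (1 - a)) := by
      refine mul_pos (mul_pos h0 hd) ?_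
      nlinarith
    exact_mod_cast h2.ne'
  have e2 : (ga a).det ≠ 0 := by
    rw [Matrix.det_fin_two]
    have : (ga a) 0 0 * (ga a) 1 1 - (ga a) 0 1 * (ga a) 1 0 = ((a * (1 - a) : ℝ) : ℂ) := by
      simp [ga]; ring
    rw [this]
    have h2 : 0 < a * (1 - a) := mul_pos h0 hd
    exact_mod_cast h2.ne'
  intro v
  constructor
  · intro h
    rw [Matrix.eq_zero_of_mulVec_eq_zero e1 h, Matrix.mulVec_zero]
  · intro h
    rw [Matrix.eq_zero_of_mulVec_eq_zero e2 h, Matrix.mulVec_zero]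

theorem divg_M {a : ℝ} (h0 : 0 < a) (h1 : a < 1) :
    divg f0 (Mch (rh a)) (Mch (ga a)) = a * (1 - a) / 4 := by
  have hd : (0 : ℝ) < 1 - a := by linarith
  have hac : (a : ℂ) ≠ 0 := by exact_mod_cast h0.ne'
  have hdc : (1 - (a : ℂ)) ≠ 0 := by exact_mod_cast hd.ne'
  have hG : Mch (ga a) * !![1 / (1 - (a : ℂ)), 0; 0, 1 / a] = 1 := by
    simp only [Mch, ga]
    ext i j
    fin_cases i <;> fin_cases j <;> simp [Matrix.mul_apply, Fin.sum_univ_two, hac, hdc]
  rw [divg_eq (channel_psd M_channel (rh_density h0 h1).1).1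
    (channel_psd M_channel (ga_density h0 h1).1) hG]
  have e1 : (Mch (rh a) * Mch (rh a) * !![1 / (1 - (a : ℂ)), 0; 0, 1 / a]).trace =
      ((1 + a * (1 - a) / 4 : ℝ) : ℂ) := by
    simp only [Mch, rh]
    rw [Matrix.trace_fin_two]
    simp [Matrix.mul_apply, Fin.sum_univ_two]
    field_simp
    ring
  have e2 : (Mch (rh a)).trace = 1 := by
    simp [Mch, rh, Matrix.trace_fin_two]
  have e3 : (Mch (ga a)).trace = 1 := by
    simp [Mch, ga, Matrix.trace_fin_two]
  rw [e1, e2, e3, Complex.ofReal_re, Complex.one_re]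
  ring

theorem trace_blocks (P Q R S : Matrix (Fin 2) (Fin 2) ℂ) :
    (Matrix.fromBlocks P Q R S).trace = P.trace + S.trace := by
  simp [Matrix.trace, Fintype.sum_sum_type]

theorem divg_N {a : ℝ} (h0 : 0 < a) (h1 : a < 1) :
    divg f0 (Nch (rh a)) (Nch (ga a)) = a ^ 2 * (1 - a) ^ 2 / 9 := by
  have hd : (0 : ℝ) < 1 - a := by linarith
  have hac : (a : ℂ) ≠ 0 := by exact_mod_cast h0.ne'
  have hdc : (1 - (a : ℂ)) ≠ 0 := by exact_mod_cast hd.ne'
  have hG : Nch (ga a) * Matrix.fromBlocks !![9 / 8 / (1 - (a : ℂ)), 0; 0, 9 / 8 / a] 0 0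
      !![18, 0; 0, 18] = 1 := by
    simp only [Nch, Ech, ga]
    rw [Matrix.fromBlocks_multiply, ← Matrix.fromBlocks_one]
    congr 1
    · ext i j
      fin_cases i <;> fin_cases j <;>
        simp [Matrix.mul_apply, Fin.sum_univ_two] <;> field_simp
    · simp
    · simp
    · ext i j
      fin_cases i <;> fin_cases j <;> simp [Matrix.mul_apply, Fin.sum_univ_two]
  rw [divg_eq (channel_psd N_channel (rh_density h0 h1).1).1
    (channel_psd N_channel (ga_density h0 h1).1) hG]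
  have e1 : (Nch (rh a) * Nch (rh a) * Matrix.fromBlocks !![9 / 8 / (1 - (a : ℂ)), 0; 0, 9 / 8 / a]
      0 0 !![18, 0; 0, 18]).trace = ((1 + a ^ 2 * (1 - a) ^ 2 / 9 : ℝ) : ℂ) := by
    simp only [Nch, Ech, rh]
    rw [Matrix.fromBlocks_multiply, Matrix.fromBlocks_multiply, trace_blocks,
      Matrix.trace_fin_two, Matrix.trace_fin_two]
    simp [Matrix.mul_apply, Fin.sum_univ_two]
    field_simp
    ring
  have e2 : (Nch (rh a)).trace = 1 := by
    simp only [Nch, Ech, rh]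
    rw [trace_blocks, Matrix.trace_fin_two, Matrix.trace_fin_two]
    simp
    ring
  have e3 : (Nch (ga a)).trace = 1 := by
    simp only [Nch, Ech, ga]
    rw [trace_blocks, Matrix.trace_fin_two, Matrix.trace_fin_two]
    simp
    ring
  rw [e1, e2, e3, Complex.ofReal_re, Complex.one_re]
  ring

theorem std_zero : IsGLB (ratiosStd f0 Nch Mch) 0 := by
  constructor
  · rintro r ⟨ρ, γ, hρ, hγ, -, -, -, rfl⟩
    exact div_nonneg (divg_nonneg (channel_psd N_channel hρ.1).1 _)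
      (divg_nonneg (channel_psd M_channel hρ.1).1 _)
  · intro l hl
    by_contra hcon
    push Not at hcon
    set a : ℝ := min l (1 / 2) with ha
    have h0 : 0 < a := lt_min hcon (by norm_num)
    have h1 : a < 1 := lt_of_le_of_lt (min_le_right _ _) (by norm_num)
    have h2 : a ≤ l := min_le_left _ _
    have hd : 0 < 1 - a := by linarith
    have hmem : divg f0 (Nch (rh a)) (Nch (ga a)) / divg f0 (Mch (rh a)) (Mch (ga a)) ∈
        ratiosStd f0 Nch Mch := by
      refine ⟨rh a, ga a, rh_density h0 h1, ga_density h0 h1, ?_, same_support h0 h1, ?_, rfl⟩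
      · intro h
        have h3 := congrFun (congrFun h 0) 1
        simp [rh, ga] at h3
        rcases h3 with h3 | h3
        · exact h0.ne' h3
        · have : (a : ℂ) = 1 := by linear_combination -h3
          have h4 : a = 1 := by exact_mod_cast this
          linarith
      · rw [divg_M h0 h1]
        positivity
    have h3 := hl hmem
    rw [divg_M h0 h1, divg_N h0 h1] at h3
    have h4 : a ^ 2 * (1 - a) ^ 2 / 9 / (a * (1 - a) / 4) = 4 / 9 * (a * (1 - a)) := by
      field_simp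
    rw [h4] at h3
    nlinarith

/-! ### The Riemannian coefficient is positive -/

/-- The solution of the Lyapunov equation for two by two matrices. -/
noncomputable def lsol (p q b b' z w w' T D : ℂ) : Matrix (Fin 2) (Fin 2) ℂ :=
  (1 / (2 * T)) • (!![z, w'; w, -z] +
    (1 / D) • (!![q, -b'; -b, p] * !![z, w'; w, -z] * !![q, -b'; -b, p]))

theorem lsol_eq (p q b b' z w w' : ℂ) (hT : p + q ≠ 0) (hD : p * q - b * b' ≠ 0) :
    lsol p q b b' z w w' (p + q) (p * q - b * b') * !![p, b'; b, q] +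
      !![p, b'; b, q] * lsol p q b b' z w w' (p + q) (p * q - b * b') = !![z, w'; w, -z] := by
  unfold lsol
  have hT' : 2 * (p + q) ≠ 0 := mul_ne_zero two_ne_zero hT
  set c := 1 / (2 * (p + q)) with hc
  set e := 1 / (p * q - b * b') with he
  have hc' : c * (2 * (p + q)) = 1 := by rw [hc]; field_simp
  have he' : e * (p * q - b * b') = 1 := by rw [he]; field_simp
  ext i j
  fin_cases i <;> fin_cases j <;>
    simp only [Matrix.mul_apply, Fin.sum_univ_two, Matrix.add_apply, Matrix.smul_apply,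
      Matrix.of_apply, Matrix.cons_val', Matrix.cons_val_zero, Matrix.cons_val_one,
      Fin.zero_eta, Fin.mk_one, Fin.isValue, smul_eq_mul, Matrix.cons_val_fin_one]
  · linear_combination (z) * hc' + (c * (2 * q * z - b' * w - w' * b)) * he'
  · linear_combination (w') * hc' + (w' * c * (p + q)) * he' 
  · linear_combination (w) * hc' + (w * c * (p + q)) * he' 
  · linear_combination (-z) * hc' + (c * (-2 * p * z - b' * w - w' * b)) * he'

theorem lsol_trace (p q b b' z w w' : ℂ) (hT : p + q ≠ 0) (hD : p * q - b * b' ≠ 0) :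
    2 * (!![z, w'; w, -z] * lsol p q b b' z w w' (p + q) (p * q - b * b')).trace =
      1 / (p + q) * (4 * (z ^ 2 + w * w') +
        (z * (p - q) + w' * b + w * b') ^ 2 / (p * q - b * b')) := by
  unfold lsol
  rw [Matrix.trace_fin_two]
  simp only [Matrix.mul_apply, Fin.sum_univ_two, Matrix.add_apply, Matrix.smul_apply,
      Matrix.of_apply, Matrix.cons_val', Matrix.cons_val_zero, Matrix.cons_val_one,
      Fin.isValue, smul_eq_mul, Matrix.cons_val_fin_one]
  field_simp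
  ring

theorem inv_two (p q b b' : ℂ) (hD : p * q - b * b' ≠ 0) :
    !![p, b'; b, q] * ((1 / (p * q - b * b')) • !![q, -b'; -b, p]) = 1 := by
  rw [mul_smul_comm, Matrix.mul_fin_two, Matrix.one_fin_two]
  ext i j
  have e : 1 / (p * q - b * b') * (p * q - b * b') = 1 := by field_simp
  fin_cases i <;> fin_cases j <;>
    simp only [Matrix.smul_apply, Matrix.of_apply, Matrix.cons_val', Matrix.cons_val_zero,
      Matrix.cons_val_one, Fin.zero_eta, Fin.mk_one, Fin.isValue, smul_eq_mul,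
      Matrix.cons_val_fin_one]
  · linear_combination e
  · ring
  · ring
  · linear_combination e

/-- The real inequality behind the comparison. -/
theorem real_ineq {a d z W b2 R : ℝ} (ha : 0 < a) (hd : 0 < d) (had : a + d = 1) (hW : 0 ≤ W)
    (hb : b2 ≤ a * d) (hR : R ^ 2 ≤ W * b2) :
    4 * (z ^ 2 + W / 4) + (z * (a - d) + R / 2) ^ 2 / (a * d - b2 / 4) ≤
      15 * (8 / 9 * (z ^ 2 / a + z ^ 2 / d) + W / 9) := by
  have hP : 0 < a * d := mul_pos ha hd
  have h4 : a * d ≤ 1 / 4 := by nlinarith [sq_nonneg (a - d)]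
  have hD : 3 / 4 * (a * d) ≤ a * d - b2 / 4 := by linarith
  have h5 : z ^ 2 / a + z ^ 2 / d = z ^ 2 / (a * d) := by
    field_simp
    linear_combination (z ^ 2) * had
  have h6 : (z * (a - d) + R / 2) ^ 2 ≤ 2 * z ^ 2 + W * (a * d) / 2 := by
    have e1 : (z * (a - d) + R / 2) ^ 2 ≤ 2 * (z * (a - d)) ^ 2 + 2 * (R / 2) ^ 2 := by
      nlinarith [sq_nonneg (z * (a - d) - R / 2)]
    have e2 : (a - d) ^ 2 ≤ 1 := by nlinarith
    have e3 : (z * (a - d)) ^ 2 ≤ z ^ 2 := by
      rw [mul_pow]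
      nlinarith [sq_nonneg z]
    have e4 : W * b2 ≤ W * (a * d) := mul_le_mul_of_nonneg_left hb hW
    nlinarith
  have h7 : (z * (a - d) + R / 2) ^ 2 / (a * d - b2 / 4) ≤
      (2 * z ^ 2 + W * (a * d) / 2) / (3 / 4 * (a * d)) := by
    have hnn : 0 ≤ 2 * z ^ 2 + W * (a * d) / 2 := by positivity
    exact div_le_div₀ hnn h6 (by positivity) hD
  have h8 : (2 * z ^ 2 + W * (a * d) / 2) / (3 / 4 * (a * d)) = 8 / 3 * (z ^ 2 / (a * d)) + 2 / 3 * W := by
    field_simp
    ring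
  have h9 : 4 * z ^ 2 ≤ z ^ 2 / (a * d) := by
    rw [le_div_iff₀ hP]
    nlinarith [sq_nonneg z]
  have h10 : 0 ≤ z ^ 2 / (a * d) := by positivity
  rw [h5]
  rw [h8] at h7
  linarith

theorem key_regular {a d z : ℝ} {b w : ℂ} (ha : 0 < a) (hd : 0 < d) (had : a + d = 1)
    (hb : Complex.normSq b ≤ a * d)
    (h1 : (!![(a : ℂ), star b; b, d] : Matrix (Fin 2) (Fin 2) ℂ).PosSemidef) :
    4 * z ^ 2 ≤ normSq k0 (Mch !![(a : ℂ), star b; b, d]) (Mch !![(z : ℂ), star w; w, -z]) ∧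
    normSq k0 (Mch !![(a : ℂ), star b; b, d]) (Mch !![(z : ℂ), star w; w, -z]) ≤
      15 * normSq k0 (Nch !![(a : ℂ), star b; b, d]) (Nch !![(z : ℂ), star w; w, -z]) := by
  have hP : 0 < a * d := mul_pos ha hd
  have h4 : a * d ≤ 1 / 4 := by nlinarith [sq_nonneg (a - d)]
  have hbb : b * star b = (Complex.normSq b : ℂ) := Complex.mul_conj b
  have hww : w * star w = (Complex.normSq w : ℂ) := Complex.mul_conj w
  have hRR : star w * b + w * star b = ((2 * (star w * b).re : ℝ) : ℂ) := by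
    apply Complex.ext
    · simp; ring
    · simp; ring
  have hTc : (a : ℂ) + d = 1 := by exact_mod_cast had
  -- the norm for `M`
  have hDM : (0 : ℝ) < a * d - Complex.normSq b / 4 := by linarith
  have hDMc : (a : ℂ) * d - b / 2 * (star b / 2) ≠ 0 := by
    have : (a : ℂ) * d - b / 2 * (star b / 2) = ((a * d - Complex.normSq b / 4 : ℝ) : ℂ) := by
      push_cast
      linear_combination (-1 / 4) * hbb
    rw [this]
    exact_mod_cast hDM.ne'
  have eM1 : Mch !![(a : ℂ), star b; b, d] = !![(a : ℂ), star b / 2; b / 2, d] := by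
    simp [Mch]
  have eM2 : Mch !![(z : ℂ), star w; w, -z] = !![(z : ℂ), star w / 2; w / 2, -z] := by
    simp [Mch]
  have hM : normSq k0 (Mch !![(a : ℂ), star b; b, d]) (Mch !![(z : ℂ), star w; w, -z]) =
      4 * (z ^ 2 + Complex.normSq w / 4) + (z * (a - d) + (star w * b).re / 2) ^ 2 /
        (a * d - Complex.normSq b / 4) := by
    have hpsd := channel_psd M_channel h1
    rw [eM1] at hpsd ⊢
    rw [eM2]
    have hl := lsol_eq a d (b / 2) (star b / 2) z (w / 2) (star w / 2) (by rw [hTc]; exact one_ne_zero) hDMc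
    rw [normSq_lyap hpsd (inv_two a d (b / 2) (star b / 2) hDMc) hl]
    have hH : (!![(z : ℂ), star w / 2; w / 2, -z])ᴴ = !![(z : ℂ), star w / 2; w / 2, -z] := by
      rw [ct_fin_two]
      simp [c2]
    rw [hH]
    have ht := lsol_trace a d (b / 2) (star b / 2) z (w / 2) (star w / 2)
      (by rw [hTc]; exact one_ne_zero) hDMc
    have ht2 := congrArg Complex.re ht
    rw [Complex.mul_re] at ht2
    simp only [Complex.re_ofNat, Complex.im_ofNat, zero_mul, sub_zero] at ht2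
    rw [ht2, hTc]
    have e : (1 : ℂ) / 1 * (4 * ((z : ℂ) ^ 2 + w / 2 * (star w / 2)) +
        ((z : ℂ) * (a - d) + star w / 2 * (b / 2) + w / 2 * (star b / 2)) ^ 2 /
          ((a : ℂ) * d - b / 2 * (star b / 2))) =
        ((4 * (z ^ 2 + Complex.normSq w / 4) + (z * (a - d) + (star w * b).re / 2) ^ 2 /
        (a * d - Complex.normSq b / 4) : ℝ) : ℂ) := by
      have e1 : (z : ℂ) * (a - d) + star w / 2 * (b / 2) + w / 2 * (star b / 2) =
          ((z * (a - d) + (star w * b).re / 2 : ℝ) : ℂ) := by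
        push_cast
        push_cast at hRR
        linear_combination (1 / 4) * hRR
      have e2 : (a : ℂ) * d - b / 2 * (star b / 2) = ((a * d - Complex.normSq b / 4 : ℝ) : ℂ) := by
        push_cast
        linear_combination (-1 / 4) * hbb
      have e3 : w / 2 * (star w / 2) = ((Complex.normSq w / 4 : ℝ) : ℂ) := by
        push_cast
        linear_combination (1 / 4) * hww
      rw [e1, e2, e3]
      push_cast
      ring
    rw [e, Complex.ofReal_re]
  -- the norm for `N`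
  have hN : 8 / 9 * (z ^ 2 / a + z ^ 2 / d) + Complex.normSq w / 9 ≤
      normSq k0 (Nch !![(a : ℂ), star b; b, d]) (Nch !![(z : ℂ), star w; w, -z]) := by
    have hac : (a : ℂ) ≠ 0 := by exact_mod_cast ha.ne'
    have hdc : (d : ℂ) ≠ 0 := by exact_mod_cast hd.ne'
    have hDN : (0 : ℝ) < 1 / 324 * (1 - Complex.normSq b) := by linarith
    have hDNr : (1 / 18 : ℂ) * (1 / 18) - b / 18 * (star b / 18) =
        ((1 / 324 * (1 - Complex.normSq b) : ℝ) : ℂ) := by
      push_cast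
      linear_combination (-1 / 324) * hbb
    have hDNc : (1 / 18 : ℂ) * (1 / 18) - b / 18 * (star b / 18) ≠ 0 := by
      rw [hDNr]
      exact_mod_cast hDN.ne'
    have hTN : (1 / 18 : ℂ) + 1 / 18 ≠ 0 := by norm_num
    have eN1 : Nch !![(a : ℂ), star b; b, d] = Matrix.fromBlocks !![8 / 9 * (a : ℂ), 0; 0, 8 / 9 * d]
        0 0 !![1 / 18, star b / 18; b / 18, 1 / 18] := by
      simp [Nch, Ech, hTc]
    have eN2 : Nch !![(z : ℂ), star w; w, -z] = Matrix.fromBlocks !![8 / 9 * (z : ℂ), 0; 0, 8 / 9 * (-z)]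
        0 0 !![0, star w / 18; w / 18, -0] := by
      simp [Nch, Ech]
    have hpsd := channel_psd N_channel h1
    rw [eN1] at hpsd ⊢
    rw [eN2]
    have hinv : Matrix.fromBlocks !![8 / 9 * (a : ℂ), 0; 0, 8 / 9 * d]
        0 0 !![1 / 18, star b / 18; b / 18, 1 / 18] *
        Matrix.fromBlocks !![9 / 8 / (a : ℂ), 0; 0, 9 / 8 / d] 0 0
          ((1 / ((1 / 18 : ℂ) * (1 / 18) - b / 18 * (star b / 18))) •
            !![1 / 18, -(star b / 18); -(b / 18), 1 / 18]) = 1 := by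
      rw [Matrix.fromBlocks_multiply, inv_two _ _ _ _ hDNc, ← Matrix.fromBlocks_one]
      congr 1
      · ext i j
        fin_cases i <;> fin_cases j <;> simp [Matrix.mul_apply, Fin.sum_univ_two] <;> field_simp
      · simp
      · simp
      · simp
    have hl := lsol_eq (1 / 18) (1 / 18) (b / 18) (star b / 18) 0 (w / 18) (star w / 18) hTN hDNc
    have hly : Matrix.fromBlocks !![(z : ℂ) / (2 * a), 0; 0, -z / (2 * d)] 0 0
          (lsol (1 / 18) (1 / 18) (b / 18) (star b / 18) 0 (w / 18) (star w / 18) (1 / 18 + 1 / 18)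
            (1 / 18 * (1 / 18) - b / 18 * (star b / 18))) *
          Matrix.fromBlocks !![8 / 9 * (a : ℂ), 0; 0, 8 / 9 * d]
            0 0 !![1 / 18, star b / 18; b / 18, 1 / 18] +
        Matrix.fromBlocks !![8 / 9 * (a : ℂ), 0; 0, 8 / 9 * d]
            0 0 !![1 / 18, star b / 18; b / 18, 1 / 18] *
          Matrix.fromBlocks !![(z : ℂ) / (2 * a), 0; 0, -z / (2 * d)] 0 0
          (lsol (1 / 18) (1 / 18) (b / 18) (star b / 18) 0 (w / 18) (star w / 18) (1 / 18 + 1 / 18)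
            (1 / 18 * (1 / 18) - b / 18 * (star b / 18))) =
        Matrix.fromBlocks !![8 / 9 * (z : ℂ), 0; 0, 8 / 9 * (-z)]
        0 0 !![0, star w / 18; w / 18, -0] := by
      rw [Matrix.fromBlocks_multiply, Matrix.fromBlocks_multiply, Matrix.fromBlocks_add, ← hl]
      congr 1
      · ext i j
        fin_cases i <;> fin_cases j <;> simp [Matrix.mul_apply, Fin.sum_univ_two] <;> field_simp <;>
          ring
      · simp
      · simp
      · simp
    rw [normSq_lyap hpsd hinv hly, Matrix.fromBlocks_conjTranspose, Matrix.fromBlocks_multiply,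
      trace_blocks]
    have hH : (!![(0 : ℂ), star w / 18; w / 18, -0])ᴴ = !![(0 : ℂ), star w / 18; w / 18, -0] := by
      rw [ct_fin_two]
      have : (starRingEnd ℂ) 18 = 18 := Complex.conj_ofNat 18
      simp [this]
    rw [hH]
    simp only [Matrix.conjTranspose_zero, Matrix.mul_zero, Matrix.zero_mul, add_zero, zero_add]
    have ht := lsol_trace (1 / 18) (1 / 18) (b / 18) (star b / 18) 0 (w / 18) (star w / 18)
      hTN hDNc
    have e1 : ((!![8 / 9 * (z : ℂ), 0; 0, 8 / 9 * (-z)])ᴴ *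
        !![(z : ℂ) / (2 * a), 0; 0, -z / (2 * d)]).trace =
        ((4 / 9 * (z ^ 2 / a + z ^ 2 / d) : ℝ) : ℂ) := by
      have h8 : (starRingEnd ℂ) 8 = 8 := Complex.conj_ofNat 8
      have h9 : (starRingEnd ℂ) 9 = 9 := Complex.conj_ofNat 9
      rw [ct_fin_two, Matrix.trace_fin_two]
      simp [Matrix.mul_apply, Fin.sum_univ_two, h8, h9]
      field_simp
      ring
    have e2 : (1 : ℂ) / (1 / 18 + 1 / 18) * (4 * (0 ^ 2 + w / 18 * (star w / 18)) +
        (0 * (1 / 18 - 1 / 18) + star w / 18 * (b / 18) + w / 18 * (star b / 18)) ^ 2 /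
        (1 / 18 * (1 / 18) - b / 18 * (star b / 18))) =
        ((Complex.normSq w / 9 + 9 * ((2 / 324 * (star w * b).re) ^ 2 /
          (1 / 324 * (1 - Complex.normSq b))) : ℝ) : ℂ) := by
      rw [hDNr]
      have e3 : (0 : ℂ) * (1 / 18 - 1 / 18) + star w / 18 * (b / 18) + w / 18 * (star b / 18) =
          ((2 / 324 * (star w * b).re : ℝ) : ℂ) := by
        push_cast
        push_cast at hRR
        linear_combination (1 / 324) * hRR
      have e4 : w / 18 * (star w / 18) = ((Complex.normSq w / 324 : ℝ) : ℂ) := by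
        push_cast
        linear_combination (1 / 324) * hww
      rw [e3, e4]
      push_cast
      ring
    have ht2 := congrArg Complex.re (ht.trans e2)
    rw [Complex.mul_re, Complex.ofReal_re] at ht2
    simp only [Complex.re_ofNat, Complex.im_ofNat, zero_mul, sub_zero] at ht2
    rw [Complex.add_re, e1, Complex.ofReal_re]
    have e5 : 0 ≤ 9 * ((2 / 324 * (star w * b).re) ^ 2 / (1 / 324 * (1 - Complex.normSq b))) := by
      positivity
    linarith
  refine ⟨?_, ?_⟩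
  · rw [hM]
    have : 0 ≤ (z * (a - d) + (star w * b).re / 2) ^ 2 / (a * d - Complex.normSq b / 4) := by
      positivity
    have := Complex.normSq_nonneg w
    linarith
  · rw [hM]
    have hR : (star w * b).re ^ 2 ≤ Complex.normSq w * Complex.normSq b := by
      have : Complex.normSq (star w * b) = Complex.normSq w * Complex.normSq b := by
        rw [map_mul]; simp
      rw [← this, Complex.normSq_apply]
      nlinarith [sq_nonneg (star w * b).im]
    have := real_ineq (z := z) ha hd had (Complex.normSq_nonneg w) hb hR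
    linarith

/-- The value of the first norm at the two singular states. -/
theorem key_singular0 (z : ℝ) (w : ℂ) :
    normSq k0 (Mch !![(1 : ℂ), 0; 0, 0]) (Mch !![(z : ℂ), star w; w, -z]) =
      z ^ 2 + Complex.normSq w / 2 ∧
    normSq k0 (Nch !![(1 : ℂ), 0; 0, 0]) (Nch !![(z : ℂ), star w; w, -z]) =
      8 / 9 * z ^ 2 + Complex.normSq w / 9 := by
  have hww : w * star w = (Complex.normSq w : ℂ) := Complex.mul_conj w
  have h8 : (starRingEnd ℂ) 8 = 8 := Complex.conj_ofNat 8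
  have h9 : (starRingEnd ℂ) 9 = 9 := Complex.conj_ofNat 9
  have h18 : (starRingEnd ℂ) 18 = 18 := Complex.conj_ofNat 18
  constructor
  · have eM1 : Mch !![(1 : ℂ), 0; 0, 0] = !![(1 : ℂ), 0; 0, 0] := by simp [Mch]
    have eM2 : Mch !![(z : ℂ), star w; w, -z] = !![(z : ℂ), star w / 2; w / 2, -z] := by
      simp [Mch]
    have hpsd : (!![(1 : ℂ), 0; 0, 0] : Matrix (Fin 2) (Fin 2) ℂ).PosSemidef := by
      have := diag2_psd (p := 1) (q := 0) (by norm_num) le_rfl
      simpa using this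
    have hp : pinv (!![(1 : ℂ), 0; 0, 0] : Matrix (Fin 2) (Fin 2) ℂ) = !![(1 : ℂ), 0; 0, 0] :=
      pinv_eq hpsd.1 rfl
        (by simp only [Matrix.mul_fin_two, mul_one, mul_zero, add_zero, zero_mul])
        (by simp only [Matrix.mul_fin_two, mul_one, mul_zero, add_zero, zero_mul])
    rw [eM1, eM2, normSq_eq (Z := !![(z : ℂ) / 2, 0; w / 2, 0]) hpsd]
    · rw [ct_fin_two, Matrix.trace_fin_two]
      have e : (!![(starRingEnd ℂ) (z : ℂ), (starRingEnd ℂ) (w / 2); (starRingEnd ℂ) (star w / 2),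
          (starRingEnd ℂ) (-(z : ℂ))] * !![(z : ℂ) / 2, 0; w / 2, 0]) 0 0 +
          (!![(starRingEnd ℂ) (z : ℂ), (starRingEnd ℂ) (w / 2); (starRingEnd ℂ) (star w / 2),
          (starRingEnd ℂ) (-(z : ℂ))] * !![(z : ℂ) / 2, 0; w / 2, 0]) 1 1 =
          ((z ^ 2 / 2 + Complex.normSq w / 4 : ℝ) : ℂ) := by
        simp [Matrix.mul_apply, Fin.sum_univ_two, c2]
        have : (starRingEnd ℂ) w = star w := rfl
        rw [this]
        linear_combination (1 / 4) * hww
      rw [e, Complex.ofReal_re]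
      ring
    · rw [hp]
      ext i j
      fin_cases i <;> fin_cases j <;> simp [Matrix.mul_apply, Fin.sum_univ_two]
  · have eN1 : Nch !![(1 : ℂ), 0; 0, 0] = Matrix.fromBlocks !![8 / 9, 0; 0, 0]
        0 0 !![1 / 18, 0; 0, 1 / 18] := by
      simp [Nch, Ech]
    have eN2 : Nch !![(z : ℂ), star w; w, -z] = Matrix.fromBlocks !![8 / 9 * (z : ℂ), 0; 0, 8 / 9 * (-z)]
        0 0 !![0, star w / 18; w / 18, 0] := by
      simp [Nch, Ech]
    have hpsd : (Nch !![(1 : ℂ), 0; 0, 0]).PosSemidef := by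
      refine channel_psd N_channel ?_
      have := diag2_psd (p := 1) (q := 0) (by norm_num) le_rfl
      simpa using this
    rw [eN1] at hpsd
    have hp : pinv (Matrix.fromBlocks (!![8 / 9, 0; 0, 0] : Matrix (Fin 2) (Fin 2) ℂ)
        0 0 (!![1 / 18, 0; 0, 1 / 18] : Matrix (Fin 2) (Fin 2) ℂ)) =
        Matrix.fromBlocks !![9 / 8, 0; 0, 0] 0 0 !![18, 0; 0, 18] := by
      refine pinv_eq hpsd.1 ?_ ?_ ?_
      · simp only [Matrix.fromBlocks_multiply, Matrix.mul_fin_two]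
        norm_num
      · simp only [Matrix.fromBlocks_multiply, Matrix.mul_fin_two, Matrix.mul_zero,
          Matrix.zero_mul, add_zero, zero_add, mul_zero, zero_mul]
        norm_num only
      · simp only [Matrix.fromBlocks_multiply, Matrix.mul_fin_two, Matrix.mul_zero,
          Matrix.zero_mul, add_zero, zero_add, mul_zero, zero_mul]
        norm_num only
    rw [eN1, eN2, normSq_eq (Z := Matrix.fromBlocks !![(z : ℂ) / 2, 0; 0, 0] 0 0
      !![0, star w / 2; w / 2, 0]) hpsd]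
    · rw [Matrix.fromBlocks_conjTranspose, Matrix.fromBlocks_multiply, trace_blocks, ct_fin_two,
        ct_fin_two, Matrix.trace_fin_two, Matrix.trace_fin_two]
      simp only [Matrix.conjTranspose_zero, Matrix.zero_mul, add_zero, zero_add, Matrix.mul_fin_two]
      simp [h8, h9, h18]
      rw [Complex.normSq_apply]
      ring
    · rw [hp]
      simp only [Matrix.fromBlocks_multiply, Matrix.mul_fin_two, Matrix.fromBlocks_add,
        Matrix.mul_zero, Matrix.zero_mul, add_zero, zero_add, add_fin_two]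
      congr 1
      · ext i j
        fin_cases i <;> fin_cases j <;> simp <;> ring
      · ext i j
        fin_cases i <;> fin_cases j <;> simp <;> ring

theorem key_singular1 (z : ℝ) (w : ℂ) :
    normSq k0 (Mch !![(0 : ℂ), 0; 0, 1]) (Mch !![(z : ℂ), star w; w, -z]) =
      z ^ 2 + Complex.normSq w / 2 ∧
    normSq k0 (Nch !![(0 : ℂ), 0; 0, 1]) (Nch !![(z : ℂ), star w; w, -z]) =
      8 / 9 * z ^ 2 + Complex.normSq w / 9 := by
  have hww : w * star w = (Complex.normSq w : ℂ) := Complex.mul_conj w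
  have h8 : (starRingEnd ℂ) 8 = 8 := Complex.conj_ofNat 8
  have h9 : (starRingEnd ℂ) 9 = 9 := Complex.conj_ofNat 9
  have h18 : (starRingEnd ℂ) 18 = 18 := Complex.conj_ofNat 18
  constructor
  · have eM1 : Mch !![(0 : ℂ), 0; 0, 1] = !![(0 : ℂ), 0; 0, 1] := by simp [Mch]
    have eM2 : Mch !![(z : ℂ), star w; w, -z] = !![(z : ℂ), star w / 2; w / 2, -z] := by
      simp [Mch]
    have hpsd : (!![(0 : ℂ), 0; 0, 1] : Matrix (Fin 2) (Fin 2) ℂ).PosSemidef := by
      have := diag2_psd (p := 0) (q := 1) le_rfl (by norm_num)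
      simpa using this
    have hp : pinv (!![(0 : ℂ), 0; 0, 1] : Matrix (Fin 2) (Fin 2) ℂ) = !![(0 : ℂ), 0; 0, 1] :=
      pinv_eq hpsd.1 rfl
        (by simp only [Matrix.mul_fin_two, mul_one, mul_zero, add_zero, zero_mul, zero_add])
        (by simp only [Matrix.mul_fin_two, mul_one, mul_zero, add_zero, zero_mul, zero_add])
    rw [eM1, eM2, normSq_eq (Z := !![0, star w / 2; 0, -(z : ℂ) / 2]) hpsd]
    · rw [ct_fin_two, Matrix.trace_fin_two]
      have e : (!![(starRingEnd ℂ) (z : ℂ), (starRingEnd ℂ) (w / 2); (starRingEnd ℂ) (star w / 2),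
          (starRingEnd ℂ) (-(z : ℂ))] * !![0, star w / 2; 0, -(z : ℂ) / 2]) 0 0 +
          (!![(starRingEnd ℂ) (z : ℂ), (starRingEnd ℂ) (w / 2); (starRingEnd ℂ) (star w / 2),
          (starRingEnd ℂ) (-(z : ℂ))] * !![0, star w / 2; 0, -(z : ℂ) / 2]) 1 1 =
          ((z ^ 2 / 2 + Complex.normSq w / 4 : ℝ) : ℂ) := by
        simp [Matrix.mul_apply, Fin.sum_univ_two, c2]
        have : (starRingEnd ℂ) w = star w := rfl
        rw [this]
        linear_combination (1 / 4) * hww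
      rw [e, Complex.ofReal_re]
      ring
    · rw [hp]
      ext i j
      fin_cases i <;> fin_cases j <;> simp [Matrix.mul_apply, Fin.sum_univ_two] <;> ring
  · have eN1 : Nch !![(0 : ℂ), 0; 0, 1] = Matrix.fromBlocks !![0, 0; 0, 8 / 9]
        0 0 !![1 / 18, 0; 0, 1 / 18] := by
      simp [Nch, Ech]
    have eN2 : Nch !![(z : ℂ), star w; w, -z] = Matrix.fromBlocks !![8 / 9 * (z : ℂ), 0; 0, 8 / 9 * (-z)]
        0 0 !![0, star w / 18; w / 18, 0] := by
      simp [Nch, Ech]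
    have hpsd : (Nch !![(0 : ℂ), 0; 0, 1]).PosSemidef := by
      refine channel_psd N_channel ?_
      have := diag2_psd (p := 0) (q := 1) le_rfl (by norm_num)
      simpa using this
    rw [eN1] at hpsd
    have hp : pinv (Matrix.fromBlocks (!![0, 0; 0, 8 / 9] : Matrix (Fin 2) (Fin 2) ℂ)
        0 0 (!![1 / 18, 0; 0, 1 / 18] : Matrix (Fin 2) (Fin 2) ℂ)) =
        Matrix.fromBlocks !![0, 0; 0, 9 / 8] 0 0 !![18, 0; 0, 18] := by
      refine pinv_eq hpsd.1 ?_ ?_ ?_
      · simp only [Matrix.fromBlocks_multiply, Matrix.mul_fin_two]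
        norm_num
      · simp only [Matrix.fromBlocks_multiply, Matrix.mul_fin_two, Matrix.mul_zero,
          Matrix.zero_mul, add_zero, zero_add, mul_zero, zero_mul]
        norm_num only
      · simp only [Matrix.fromBlocks_multiply, Matrix.mul_fin_two, Matrix.mul_zero,
          Matrix.zero_mul, add_zero, zero_add, mul_zero, zero_mul]
        norm_num only
    rw [eN1, eN2, normSq_eq (Z := Matrix.fromBlocks !![0, 0; 0, -(z : ℂ) / 2] 0 0
      !![0, star w / 2; w / 2, 0]) hpsd]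
    · rw [Matrix.fromBlocks_conjTranspose, Matrix.fromBlocks_multiply, trace_blocks, ct_fin_two,
        ct_fin_two, Matrix.trace_fin_two, Matrix.trace_fin_two]
      simp only [Matrix.conjTranspose_zero, Matrix.zero_mul, add_zero, zero_add, Matrix.mul_fin_two]
      simp [h8, h9, h18]
      rw [Complex.normSq_apply]
      ring
    · rw [hp]
      simp only [Matrix.fromBlocks_multiply, Matrix.mul_fin_two, Matrix.fromBlocks_add,
        Matrix.mul_zero, Matrix.zero_mul, add_zero, zero_add, add_fin_two]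
      congr 1
      · ext i j
        fin_cases i <;> fin_cases j <;> simp <;> ring
      · ext i j
        fin_cases i <;> fin_cases j <;> simp <;> ring

/-- The comparison of the two norms at every state. -/
theorem key {ρ X : Matrix (Fin 2) (Fin 2) ℂ} (hρ : IsDensity ρ) (hX : Xᴴ = X) (hX0 : X.trace = 0) :
    0 ≤ normSq k0 (Mch ρ) (Mch X) ∧
      normSq k0 (Mch ρ) (Mch X) ≤ 15 * normSq k0 (Nch ρ) (Nch X) := by
  obtain ⟨hpsd, htr⟩ := hρ
  -- entries of `X`
  have hX00 : star (X 0 0) = X 0 0 := congrFun (congrFun hX 0) 0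
  have hX01 : X 0 1 = star (X 1 0) := (congrFun (congrFun hX 0) 1).symm
  have hz : X 0 0 = (((X 0 0).re : ℝ) : ℂ) := (Complex.conj_eq_iff_re.mp hX00).symm
  have hX11 : X 1 1 = -X 0 0 := by
    rw [Matrix.trace_fin_two] at hX0
    linear_combination hX0
  have eX : X = !![(((X 0 0).re : ℝ) : ℂ), star (X 1 0); X 1 0, -(((X 0 0).re : ℝ) : ℂ)] := by
    conv_lhs => rw [Matrix.eta_fin_two X]
    rw [hX11, hX01, ← hz]
  -- entries of `ρ`
  have hr00 : star (ρ 0 0) = ρ 0 0 := congrFun (congrFun hpsd.1 0) 0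
  have hr11 : star (ρ 1 1) = ρ 1 1 := congrFun (congrFun hpsd.1 1) 1
  have hr01 : ρ 0 1 = star (ρ 1 0) := (congrFun (congrFun hpsd.1 0) 1).symm
  have ha : ρ 0 0 = (((ρ 0 0).re : ℝ) : ℂ) := (Complex.conj_eq_iff_re.mp hr00).symm
  have hd : ρ 1 1 = (((ρ 1 1).re : ℝ) : ℂ) := (Complex.conj_eq_iff_re.mp hr11).symm
  have er : ρ = !![(((ρ 0 0).re : ℝ) : ℂ), star (ρ 1 0); ρ 1 0, (((ρ 1 1).re : ℝ) : ℂ)] := by
    conv_lhs => rw [Matrix.eta_fin_two ρ]
    rw [hr01, ← ha, ← hd]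
  have ha0 : 0 ≤ (ρ 0 0).re := by
    have := hpsd.diag_nonneg (i := 0)
    rw [Complex.le_def] at this
    exact this.1
  have hd0 : 0 ≤ (ρ 1 1).re := by
    have := hpsd.diag_nonneg (i := 1)
    rw [Complex.le_def] at this
    exact this.1
  have had : (ρ 0 0).re + (ρ 1 1).re = 1 := by
    rw [Matrix.trace_fin_two] at htr
    have := congrArg Complex.re htr
    simpa using this
  have hdet : Complex.normSq (ρ 1 0) ≤ (ρ 0 0).re * (ρ 1 1).re := by
    have h1 := hpsd.det_nonneg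
    rw [Matrix.det_fin_two, Complex.le_def] at h1
    have h2 := h1.1
    rw [hr01, ha, hd] at h2
    have h3 : star (ρ 1 0) * ρ 1 0 = (Complex.normSq (ρ 1 0) : ℂ) := by
      rw [mul_comm]; exact Complex.mul_conj _
    rw [h3] at h2
    simp only [Complex.zero_re, Complex.sub_re, Complex.ofReal_re, Complex.mul_re,
      Complex.ofReal_im, mul_zero, sub_zero] at h2
    linarith
  set a := (ρ 0 0).re
  set d := (ρ 1 1).re
  set b := ρ 1 0
  set z := (X 0 0).re
  set w := X 1 0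
  have hw := Complex.normSq_nonneg w
  rcases eq_or_lt_of_le ha0 with h | h
  · have hb : b = 0 := by
      rw [← h, zero_mul] at hdet
      exact Complex.normSq_eq_zero.mp (le_antisymm hdet (Complex.normSq_nonneg _))
    have hd1 : d = 1 := by linarith
    have er' : ρ = !![(0 : ℂ), 0; 0, 1] := by
      rw [er, hb, hd1, ← h]
      simp
    obtain ⟨k1, k2⟩ := key_singular1 z w
    rw [er', eX, k1, k2]
    constructor
    · positivity
    · nlinarith [sq_nonneg z]
  · rcases eq_or_lt_of_le hd0 with h' | h'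
    · have hb : b = 0 := by
        rw [← h', mul_zero] at hdet
        exact Complex.normSq_eq_zero.mp (le_antisymm hdet (Complex.normSq_nonneg _))
      have ha1 : a = 1 := by linarith
      have er' : ρ = !![(1 : ℂ), 0; 0, 0] := by
        rw [er, hb, ha1, ← h']
        simp
      obtain ⟨k1, k2⟩ := key_singular0 z w
      rw [er', eX, k1, k2]
      constructor
      · positivity
      · nlinarith [sq_nonneg z]
    · have hp' : (!![(a : ℂ), star b; b, d] : Matrix (Fin 2) (Fin 2) ℂ).PosSemidef := by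
        rw [← er]; exact hpsd
      obtain ⟨k1, k2⟩ := key_regular (z := z) (w := w) h h' had hdet hp'
      rw [er, eX]
      exact ⟨le_trans (by positivity) k1, k2⟩

theorem riem_pos : ∃ c : ℝ, 0 < c ∧ IsGLB (ratiosRiem k0 Nch Mch) c := by
  have hlow : ∀ r ∈ ratiosRiem k0 Nch Mch, 1 / 15 ≤ r := by
    rintro r ⟨ρ, X, hρ, hX, hX0, hne, rfl⟩
    obtain ⟨h1, h2⟩ := key hρ hX hX0
    have hpos : 0 < normSq k0 (Mch ρ) (Mch X) := lt_of_le_of_ne h1 (Ne.symm hne)
    rw [le_div_iff₀ hpos]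
    linarith
  have hne : (ratiosRiem k0 Nch Mch).Nonempty := by
    have hp : (!![((1 / 2 : ℝ) : ℂ), star 0; 0, ((1 / 2 : ℝ) : ℂ)] :
        Matrix (Fin 2) (Fin 2) ℂ).PosSemidef := by
      have := diag2_psd (p := 1 / 2) (q := 1 / 2) (by norm_num) (by norm_num)
      simpa using this
    obtain ⟨k1, k2⟩ := key_regular (a := 1 / 2) (d := 1 / 2) (z := 1) (b := 0) (w := 0)
      (by norm_num) (by norm_num) (by norm_num) (by simp) hp
    refine ⟨_, !![((1 / 2 : ℝ) : ℂ), star 0; 0, ((1 / 2 : ℝ) : ℂ)],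
      !![((1 : ℝ) : ℂ), star 0; 0, -((1 : ℝ) : ℂ)], ⟨hp, ?_⟩, ?_, ?_, ?_, rfl⟩
    · rw [Matrix.trace_fin_two]
      simp
      norm_num
    · rw [ct_fin_two]
      simp
    · rw [Matrix.trace_fin_two]
      simp
    · intro h
      rw [h] at k1
      norm_num at k1
  refine ⟨sInf (ratiosRiem k0 Nch Mch), ?_, isGLB_csInf hne ⟨1 / 15, hlow⟩⟩
  exact lt_of_lt_of_le (by norm_num) (le_csInf hne hlow)

/-- **Main result.** There are channels `N`, `M` with a common input space and functions `f`, `κ`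
in the two classes such that the divergence coefficient of `f` is zero and the Riemannian
coefficient of `κ` is positive. -/
theorem result : ∃ (N : Matrix (Fin 2) (Fin 2) ℂ → Matrix (Fin 2 ⊕ Fin 2) (Fin 2 ⊕ Fin 2) ℂ)
    (M : Matrix (Fin 2) (Fin 2) ℂ → Matrix (Fin 2) (Fin 2) ℂ) (f κ : ℝ → ℝ),
    IsChannel N ∧ IsChannel M ∧ ClassF f ∧ ClassK κ ∧ ContinuousOn κ (Set.Ici 0) ∧
      IsGLB (ratiosStd f N M) 0 ∧ ∃ c : ℝ, 0 < c ∧ IsGLB (ratiosRiem κ N M) c :=
  ⟨Nch, Mch, f0, k0, N_channel, M_channel, f0_class, k0_class, k0_cont, std_zero, riem_pos⟩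

end Pool.Agent.Results.MP_7112d2_mp.ZeroVsPositive
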